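import Pool.Agent.HadAP.Main

/-!
# Arithmetic progressions of Hadamard orders and bounded multipliers

There is an infinite arithmetic progression of Hadamard orders if and only if there is a constant
`C` such that every positive integer `n` has a multiple `c n` with `c ≤ C` which is a Hadamard
order, and if and only if all multiples of some positive integer are Hadamard orders.

The ingredient from design theory is that `2 (p + 1) p ^ e` is a Hadamard order for every odd
prime `p` and every `e ≥ 0`; it is proved here from scratch.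
-/

set_option autoImplicit false

namespace Pool.Agent.Results.MP_9e8db8_co.BoundedMultiplier

open Pool.Agent.HadAP

/-- The main result. -/
theorem result : List.TFAE [
    ∃ a d : ℕ, 0 < a ∧ 0 < d ∧ ∀ k : ℕ, IsHad (a + k * d),
    ∃ N : ℕ, 0 < N ∧ ∀ k : ℕ, 0 < k → IsHad (k * N),
    ∃ C : ℕ, ∀ n : ℕ, 0 < n → ∃ c, 0 < c ∧ c ≤ C ∧ IsHad (c * n)] := by
  tfae_have 1 → 3 := fun ⟨_, _, ha, hd, h⟩ => ap_to_bounded ha hd h
  tfae_have 3 → 2 := fun ⟨_, h⟩ => bounded_to_multiple h
  tfae_have 2 → 1 := fun ⟨N, hN, h⟩ => ⟨N, N, hN, hN, fun k => by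
    have h1 : N + k * N = (k + 1) * N := by ring
    rw [h1]
    exact h (k + 1) k.succ_pos⟩
  tfae_finish

end Pool.Agent.Results.MP_9e8db8_co.BoundedMultiplier
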