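import Pool.Agent.HadS.Main

/-!
# Hadamard matrices of order `2 ^ t * n` with `t` bounded by a function of `log* n`

There is a constant `K` such that `2 ^ t * n` is the order of a Hadamard matrix for all `n ≥ 1` and
all `t ≥ K ^ (log* n + 1)`, where `log* n` (`lstar n`) is the iterated logarithm: the number of
times one has to apply the rounded down binary logarithm to `n` in order to reach `0`.

In other words, for `d = 2 ^ t` all the terms `d, 2 d, …, N d` of the progression with difference `d`
are orders of Hadamard matrices as soon as `K ^ (log* N + 1) ≤ t`.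
-/

set_option autoImplicit false

namespace Pool.Agent.Results.MP_9e8db8_co.LogStarExponent

open Matrix Pool.Agent.HadAP Pool.Agent.HadS

theorem result :
    ∃ K : ℕ, ∀ n : ℕ, 0 < n → ∀ t : ℕ, K ^ (lstar n + 1) ≤ t → IsHad (2 ^ t * n) :=
  Pool.Agent.HadS.main

end Pool.Agent.Results.MP_9e8db8_co.LogStarExponent
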